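import Pool.Agent.N382.B2.OneD2

set_option autoImplicit false

namespace Pool.Agent.N382.B2

open Finset

variable {V : Type*}

/-- `v 0, …, v k` is a path of the graph `G` -/
def IsP (G : SimpleGraph V) (k : ℕ) (v : ℕ → V) : Prop :=
  (∀ i < k, G.Adj (v i) (v (i + 1))) ∧ (∀ i ≤ k, ∀ j ≤ k, v i = v j → i = j)

lemma exists_longest [Fintype V] [Nonempty V] (G : SimpleGraph V) :
    ∃ d v, IsP G d v ∧ ∀ k w, IsP G k w → k ≤ d := by
  classical
  have hbd : ∀ k w, IsP G k w → k < Fintype.card V := by
    intro k w hw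
    have hinj : Function.Injective (fun i : Fin (k + 1) => w i) := by
      intro i j hij
      exact Fin.ext (hw.2 i (by omega) j (by omega) hij)
    have := Fintype.card_le_of_injective _ hinj
    rw [Fintype.card_fin] at this
    omega
  obtain ⟨x⟩ := ‹Nonempty V›
  have h0 : IsP G 0 (fun _ => x) := ⟨by intro i hi; omega, by intro i hi j hj _; omega⟩
  obtain ⟨d, hd, hmax⟩ := Finset.exists_max_image
    ((range (Fintype.card V)).filter (fun k => ∃ w, IsP G k w)) id
    ⟨0, Finset.mem_filter.2 ⟨Finset.mem_range.2 (hbd 0 _ h0), _, h0⟩⟩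
  obtain ⟨-, v, hv⟩ := Finset.mem_filter.1 hd
  exact ⟨d, v, hv, fun k w hw =>
    hmax k (Finset.mem_filter.2 ⟨Finset.mem_range.2 (hbd k w hw), w, hw⟩)⟩

lemma ext_path {G : SimpleGraph V} {k h : ℕ} {a w : ℕ → V} {δ : V → ℕ} (ha : IsP G k a)
    (hδa : ∀ j ≤ k, δ (a j) = 0) (hδw : ∀ m ≤ h, δ (w m) = m)
    (hw : ∀ m < h, G.Adj (w m) (w (m + 1))) (h0 : w 0 = a k) :
    IsP G (k + h) (fun j => if j ≤ k then a j else w (j - k)) := by
  constructor
  · intro i hi
    simp only
    rcases lt_trichotomy i k with hik | hik | hik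
    · rw [if_pos (by omega), if_pos (by omega)]
      exact ha.1 i hik
    · subst hik
      rw [if_pos le_rfl, if_neg (by omega), ← h0]
      have := hw 0 (by omega)
      rwa [show i + 1 - i = 0 + 1 by omega]
    · rw [if_neg (by omega), if_neg (by omega)]
      have := hw (i - k) (by omega)
      rwa [show i + 1 - k = i - k + 1 by omega]
  · intro i hi j hj hij
    simp only at hij
    by_cases h1 : i ≤ k <;> by_cases h2 : j ≤ k
    · rw [if_pos h1, if_pos h2] at hij
      exact ha.2 i h1 j h2 hij
    · rw [if_pos h1, if_neg h2] at hij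
      have e1 := hδa i h1
      have e2 := hδw (j - k) (by omega)
      rw [hij, e2] at e1
      omega
    · rw [if_neg h1, if_pos h2] at hij
      have e1 := hδa j h2
      have e2 := hδw (i - k) (by omega)
      rw [← hij, e2] at e1
      omega
    · rw [if_neg h1, if_neg h2] at hij
      have e1 := hδw (i - k) (by omega)
      have e2 := hδw (j - k) (by omega)
      rw [hij, e2] at e1
      omega

lemma rev_path {G : SimpleGraph V} {d : ℕ} {v : ℕ → V} (hv : IsP G d v) (k : ℕ) (hk : k ≤ d) :
    IsP G k (fun j => v (d - j)) := by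
  constructor
  · intro i hi
    have := hv.1 (d - (i + 1)) (by omega)
    rw [show d - (i + 1) + 1 = d - i by omega] at this
    exact this.symm
  · intro i hi j hj hij
    have := hv.2 (d - i) (by omega) (d - j) (by omega) hij
    omega

lemma sub_path {G : SimpleGraph V} {d : ℕ} {v : ℕ → V} (hv : IsP G d v) (k : ℕ) (hk : k ≤ d) :
    IsP G k v :=
  ⟨fun i hi => hv.1 i (by omega), fun i hi j hj h => hv.2 i (by omega) j (by omega) h⟩

lemma first_step {G : SimpleGraph V} (hG : G.Connected) {x z : V} (hxz : 0 < G.dist x z) :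
    ∃ w, G.Adj x w ∧ G.dist w z + 1 ≤ G.dist x z := by
  obtain ⟨p, hp⟩ := hG.exists_walk_length_eq_dist x z
  cases p with
  | nil => rw [SimpleGraph.dist_self] at hxz; omega
  | @cons _ w _ hadj p' =>
    refine ⟨w, hadj, ?_⟩
    rw [SimpleGraph.Walk.length_cons] at hp
    have := SimpleGraph.dist_le p'
    omega

/-- the main theorem: a dominating 2-broadcast of small cost -/
theorem exists_broadcast [Fintype V] (G : SimpleGraph V) (hG : G.Connected)
    (hV : 2 ≤ Fintype.card V) :
    ∃ f : V → ℕ, (∀ x, f x ≤ G.diam) ∧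
      (∀ u, ∃ x y, x ≠ y ∧ 0 < f x ∧ 0 < f y ∧ G.dist u x ≤ f x ∧ G.dist u y ≤ f y) ∧
      3 * ∑ x, f x ≤ 2 * Fintype.card V + 4 := by
  classical
  have : Nontrivial V := Fintype.one_lt_card_iff_nontrivial.1 hV
  have : Nonempty V := inferInstance
  obtain ⟨d, v, hv, hmax⟩ := exists_longest G
  -- distance to the path
  have hmin : ∀ u, ∃ i ≤ d, ∀ j ≤ d, G.dist u (v i) ≤ G.dist u (v j) := by
    intro u
    obtain ⟨i, hi, h⟩ := Finset.exists_min_image (range (d + 1)) (fun i => G.dist u (v i))
      ⟨0, Finset.mem_range.2 (by omega)⟩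
    exact ⟨i, by have := Finset.mem_range.1 hi; omega,
      fun j hj => h j (Finset.mem_range.2 (by omega))⟩
  choose ix hix1 hix2 using hmin
  set δ : V → ℕ := fun u => G.dist u (v (ix u)) with hδ
  have hδle : ∀ u, ∀ j ≤ d, δ u ≤ G.dist u (v j) := fun u j hj => hix2 u j hj
  have hδ0 : ∀ u, δ u = 0 → u = v (ix u) := by
    intro u hu
    exact (hG.dist_eq_zero_iff).1 hu
  have hδv : ∀ j ≤ d, δ (v j) = 0 := by
    intro j hj
    have := hδle (v j) j hj
    rw [SimpleGraph.dist_self] at this
    omega
  have hpar : ∀ u, 0 < δ u → ∃ w, G.Adj u w ∧ δ w + 1 = δ u := by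
    intro u hu
    obtain ⟨w, hadj, hw⟩ := first_step hG hu
    refine ⟨w, hadj, ?_⟩
    have h1 : δ w ≤ G.dist w (v (ix u)) := hδle w (ix u) (hix1 u)
    have h2 : δ u ≤ 1 + δ w := by
      refine le_trans (hδle u (ix w) (hix1 w)) ?_
      refine le_trans (hG.dist_triangle (v := w)) ?_
      have : G.dist u w = 1 := SimpleGraph.dist_eq_one_iff_adj.2 hadj
      rw [this]
    have h3 : δ u = G.dist u (v (ix u)) := rfl
    omega
  have hpar' : ∀ u, ∃ w, 0 < δ u → G.Adj u w ∧ δ w + 1 = δ u := by
    intro u
    by_cases h : 0 < δ u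
    · obtain ⟨w, hw⟩ := hpar u h
      exact ⟨w, fun _ => hw⟩
    · exact ⟨u, fun h' => absurd h' h⟩
  choose par hpr using hpar'
  -- iterates
  have hit : ∀ k u, k ≤ δ u → δ (par^[k] u) = δ u - k := by
    intro k
    induction k with
    | zero => intro u _; simp
    | succ k ih =>
      intro u hk
      rw [Function.iterate_succ_apply']
      have h1 := ih u (by omega)
      have h2 := (hpr (par^[k] u) (by omega)).2
      omega
  set π : V → ℕ := fun u => ix (par^[δ u] u) with hπ
  have hπd : ∀ u, π u ≤ d := fun u => hix1 _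
  have hπv : ∀ u, v (π u) = par^[δ u] u := by
    intro u
    exact (hδ0 _ (by rw [hit _ u le_rfl]; omega)).symm
  have hπi : ∀ i ≤ d, π (v i) = i := by
    intro i hi
    have h := hπv (v i)
    rw [hδv i hi] at h
    exact hv.2 _ (hπd _) _ hi h
  have hπp : ∀ u, 0 < δ u → π (par u) = π u := by
    intro u hu
    have h := (hpr u hu).2
    simp only [hπ]
    rw [show δ u = δ (par u) + 1 by omega, Function.iterate_succ_apply]
  have hπit : ∀ k u, k ≤ δ u → π (par^[k] u) = π u := by
    intro k
    induction k with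
    | zero => intro u _; simp
    | succ k ih =>
      intro u hk
      rw [Function.iterate_succ_apply', hπp _ (by rw [hit k u (by omega)]; omega), ih u (by omega)]
  -- distance to the foot
  have hfoot : ∀ k u, δ u = k → G.dist u (v (π u)) ≤ k := by
    intro k
    induction k with
    | zero =>
      intro u hu
      have h := hπv u
      rw [hu] at h
      rw [h]
      simp
    | succ k ih =>
      intro u hu
      have h1 := hpr u (by omega)
      have h2 := ih (par u) (by omega)
      rw [hπp u (by omega)] at h2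
      refine le_trans (hG.dist_triangle (v := par u)) ?_
      have : G.dist u (par u) = 1 := SimpleGraph.dist_eq_one_iff_adj.2 h1.1
      omega
  have hpd : ∀ m i, i + m ≤ d → G.dist (v i) (v (i + m)) ≤ m := by
    intro m
    induction m with
    | zero => intro i _; simp
    | succ m ih =>
      intro i hi
      refine le_trans (hG.dist_triangle (v := v (i + m))) ?_
      have h1 := ih i (by omega)
      have : G.dist (v (i + m)) (v (i + (m + 1))) = 1 :=
        SimpleGraph.dist_eq_one_iff_adj.2 (hv.1 (i + m) (by omega))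
      omega
  -- the depths
  set H : ℕ → ℕ := fun i => (univ.filter (fun u => π u = i)).sup δ with hH
  have hHle : ∀ u, δ u ≤ H (π u) := by
    intro u
    exact Finset.le_sup (f := δ) (Finset.mem_filter.2 ⟨Finset.mem_univ _, rfl⟩)
  have hHex : ∀ i, ∃ u, i ≤ d → π u = i ∧ δ u = H i := by
    intro i
    by_cases hi : i ≤ d
    · obtain ⟨u, hu, hu2⟩ := Finset.exists_mem_eq_sup (univ.filter (fun u => π u = i))
        ⟨v i, Finset.mem_filter.2 ⟨Finset.mem_univ _, hπi i hi⟩⟩ δ
      exact ⟨u, fun _ => ⟨(Finset.mem_filter.1 hu).2, hu2.symm⟩⟩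
    · exact ⟨v 0, fun h => absurd h hi⟩
  choose top htop using hHex
  set w : ℕ → ℕ → V := fun i k => par^[H i - k] (top i) with hw
  have hwδ : ∀ i ≤ d, ∀ k ≤ H i, δ (w i k) = k := by
    intro i hi k hk
    have := (htop i hi).2
    simp only [hw]
    rw [hit _ _ (by omega)]
    omega
  have hwπ : ∀ i ≤ d, ∀ k ≤ H i, π (w i k) = i := by
    intro i hi k hk
    have := (htop i hi).2
    simp only [hw]
    rw [hπit _ _ (by omega)]
    exact (htop i hi).1
  have hwadj : ∀ i ≤ d, ∀ k < H i, G.Adj (w i k) (w i (k + 1)) := by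
    intro i hi k hk
    have h1 := hwδ i hi (k + 1) (by omega)
    have h2 := (hpr (w i (k + 1)) (by omega)).1
    have h3 : w i k = par (w i (k + 1)) := by
      simp only [hw]
      rw [← Function.iterate_succ_apply' par, show (H i - (k + 1)).succ = H i - k by omega]
    rw [h3]
    exact h2.symm
  have hw0 : ∀ i ≤ d, w i 0 = v i := by
    intro i hi
    have h1 := hwδ i hi 0 (by omega)
    have h2 := hπv (w i 0)
    rw [h1, hwπ i hi 0 (by omega)] at h2
    exact h2.symm
  have hHb : ∀ i ≤ d, H i ≤ i ∧ i + H i ≤ d := by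
    intro i hi
    constructor
    · have h := hmax _ _ (ext_path (k := d - i) (h := H i) (a := fun j => v (d - j)) (w := w i)
        (δ := δ) (rev_path hv (d - i) (by omega)) (fun j hj => hδv _ (by omega)) (hwδ i hi)
        (hwadj i hi) (by rw [hw0 i hi, show d - (d - i) = i by omega]))
      omega
    · exact hmax _ _ (ext_path (k := i) (h := H i) (a := v) (w := w i)
        (δ := δ) (sub_path hv i hi) (fun j hj => hδv _ (by omega)) (hwδ i hi)
        (hwadj i hi) (hw0 i hi))
  -- counting
  have hcount : d + 1 + ∑ i ∈ range (d + 1), H i ≤ Fintype.card V := by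
    have h1 : ((range (d + 1)).sigma (fun i => range (H i + 1))).card ≤ Fintype.card V := by
      rw [← Finset.card_univ]
      refine Finset.card_le_card_of_injOn (fun p => w p.1 p.2) (fun _ _ => Finset.mem_univ _) ?_
      rintro ⟨i, k⟩ hp ⟨j, l⟩ hq hpq
      simp only [Finset.coe_sigma, Set.mem_sigma_iff, Finset.mem_coe, Finset.mem_range] at hp hq
      simp only at hpq
      have a1 := hwπ i (by omega) k (by omega)
      have a2 := hwπ j (by omega) l (by omega)
      have a3 := hwδ i (by omega) k (by omega)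
      have a4 := hwδ j (by omega) l (by omega)
      rw [hpq, a2] at a1
      subst a1
      rw [hpq, a4] at a3
      subst a3
      rfl
    rw [Finset.card_sigma] at h1
    simp only [Finset.card_range] at h1
    rw [Finset.sum_add_distrib] at h1
    simp only [Finset.sum_const, Finset.card_range, smul_eq_mul, mul_one] at h1
    omega
  -- d ≥ 1
  have hd1 : 1 ≤ d := by
    obtain ⟨x, y, hxy⟩ := exists_pair_ne V
    obtain ⟨z, hadj, -⟩ := first_step hG (hG.pos_dist_of_ne hxy)
    refine hmax 1 (fun j => if j = 0 then x else z) ⟨?_, ?_⟩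
    · intro i hi
      have : i = 0 := by omega
      subst this
      simpa using hadj
    · intro i hi j hj hij
      interval_cases i <;> interval_cases j
      · rfl
      · simp at hij; exact absurd hij hadj.ne
      · simp at hij; exact absurd hij.symm hadj.ne
      · rfl
  have hD : 0 < G.diam := Nat.pos_of_ne_zero (SimpleGraph.connected_iff_diam_ne_zero.1 hG)
  have hdist : ∀ x y, G.dist x y ≤ G.diam := fun x y =>
    SimpleGraph.dist_le_diam (SimpleGraph.connected_iff_ediam_ne_top.1 hG)
  obtain ⟨F, hF, hcost⟩ := oneD d hd1 H hHb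
  set f : V → ℕ := fun x => ∑ c ∈ range (d + 1), if v c = x then min (F c) G.diam else 0 with hf
  have hfv : ∀ c ≤ d, f (v c) = min (F c) G.diam := by
    intro c hc
    simp only [hf]
    rw [Finset.sum_eq_single c]
    · simp
    · intro b hb hbc
      rw [if_neg]
      intro h
      exact hbc (hv.2 b (by have := Finset.mem_range.1 hb; omega) c hc h)
    · intro h
      exact absurd (Finset.mem_range.2 (by omega)) h
  refine ⟨f, ?_, ?_, ?_⟩
  · intro x
    by_cases hx : ∃ c ≤ d, v c = x
    · obtain ⟨c, hc, rfl⟩ := hx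
      rw [hfv c hc]
      exact min_le_right _ _
    · have : f x = 0 := by
        simp only [hf]
        apply Finset.sum_eq_zero
        intro c hc
        rw [if_neg]
        intro h
        exact hx ⟨c, by have := Finset.mem_range.1 hc; omega, h⟩
      omega
  · intro u
    obtain ⟨c1, c2, hne, hc1, hc2, hp1, hp2, ⟨q1, q2⟩, q3, q4⟩ := hF (π u) (hπd u)
    have hu1 := hfoot _ u rfl
    have hu2 := hHle u
    have hdc : ∀ c ≤ d, c + H (π u) ≤ π u + F c → π u + H (π u) ≤ c + F c →
        G.dist u (v c) ≤ F c := by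
      intro c hc e1 e2
      refine le_trans (hG.dist_triangle (v := v (π u))) ?_
      rcases le_total (π u) c with h | h
      · have := hpd (c - π u) (π u) (by omega)
        rw [show π u + (c - π u) = c by omega] at this
        omega
      · have := hpd (π u - c) c (by have := hπd u; omega)
        rw [show c + (π u - c) = π u by omega, SimpleGraph.dist_comm] at this
        omega
    refine ⟨v c1, v c2, fun h => hne (hv.2 c1 hc1 c2 hc2 h), ?_, ?_, ?_, ?_⟩
    · rw [hfv c1 hc1]; omega
    · rw [hfv c2 hc2]; omega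
    · rw [hfv c1 hc1]; exact le_min (hdc c1 hc1 q1 q2) (hdist _ _)
    · rw [hfv c2 hc2]; exact le_min (hdc c2 hc2 q3 q4) (hdist _ _)
  · have hs : ∑ x, f x ≤ ∑ c ∈ range (d + 1), F c := by
      simp only [hf]
      rw [Finset.sum_comm]
      apply Finset.sum_le_sum
      intro c _
      rw [Finset.sum_ite_eq]
      simp
    omega

end Pool.Agent.N382.B2
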