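import Pool.Agent.N382.B2.Steps2

set_option autoImplicit false

namespace Pool.Agent.N382.B2

open Finset

/-- a pair `(l, ρ)` is the interval `[l, l + 2 ρ]` here -/
lemma merge (d : ℕ) (k : ℕ) : ∀ S : Finset (ℕ × ℕ), S.card = k →
    (∀ m ∈ S, 1 ≤ m.2 ∧ m.1 + 2 * m.2 ≤ d) →
    (∃ S' : Finset (ℕ × ℕ), (∀ m ∈ S', 1 ≤ m.2 ∧ m.1 + 2 * m.2 ≤ d) ∧
      (∀ m ∈ S, ∃ m' ∈ S', m'.1 ≤ m.1 ∧ m.1 + 2 * m.2 ≤ m'.1 + 2 * m'.2) ∧
      ∑ m ∈ S', m.2 ≤ ∑ m ∈ S, m.2 ∧
      (∀ m ∈ S', ∀ m' ∈ S', m ≠ m' → m.1 + 2 * m.2 < m'.1 ∨ m'.1 + 2 * m'.2 < m.1)) ∨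
    (d % 2 = 1 ∧ d + 1 ≤ 2 * ∑ m ∈ S, m.2) := by
  induction k using Nat.strong_induction_on with
  | _ k ih =>
    intro S hk hS
    by_cases hdis : ∀ m ∈ S, ∀ m' ∈ S, m ≠ m' → m.1 + 2 * m.2 < m'.1 ∨ m'.1 + 2 * m'.2 < m.1
    · exact Or.inl ⟨S, hS, fun m hm => ⟨m, hm, le_rfl, le_rfl⟩, le_rfl, hdis⟩
    · push Not at hdis
      obtain ⟨a, ha, b, hb, hab, h1, h2⟩ := hdis
      have ha' := hS a ha
      have hb' := hS b hb
      have hsum : a.2 + b.2 + ∑ m ∈ (S.erase a).erase b, m.2 = ∑ m ∈ S, m.2 := by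
        rw [← Finset.add_sum_erase S (fun m => m.2) ha,
          ← Finset.add_sum_erase (S.erase a) (fun m => m.2) (Finset.mem_erase.2 ⟨Ne.symm hab, hb⟩)]
        ring
      -- the merged interval
      by_cases hsp : d % 2 = 1 ∧ d + 1 ≤ 2 * (a.2 + b.2)
      · exact Or.inr ⟨hsp.1, by omega⟩
      · have hex : ∃ l ρ, 1 ≤ ρ ∧ l + 2 * ρ ≤ d ∧ l ≤ a.1 ∧ l ≤ b.1 ∧ a.1 + 2 * a.2 ≤ l + 2 * ρ ∧
            b.1 + 2 * b.2 ≤ l + 2 * ρ ∧ ρ ≤ a.2 + b.2 := by
          set l := min a.1 b.1 with hl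
          set u := max (a.1 + 2 * a.2) (b.1 + 2 * b.2) with hu
          by_cases hev : (u - l) % 2 = 0
          · exact ⟨l, (u - l) / 2, by omega, by omega, by omega, by omega, by omega, by omega,
              by omega⟩
          · by_cases hud : u < d
            · exact ⟨l, (u - l + 1) / 2, by omega, by omega, by omega, by omega, by omega,
                by omega, by omega⟩
            · by_cases hl0 : 0 < l
              · exact ⟨l - 1, (u - l + 1) / 2, by omega, by omega, by omega, by omega, by omega,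
                  by omega, by omega⟩
              · exfalso
                apply hsp
                omega
        obtain ⟨l, ρ, e1, e2, e3, e4, e5, e6, e7⟩ := hex
        set S1 : Finset (ℕ × ℕ) := insert (l, ρ) ((S.erase a).erase b) with hS1
        have hc2 : ((S.erase a).erase b).card + 2 = k := by
          rw [Finset.card_erase_of_mem (Finset.mem_erase.2 ⟨Ne.symm hab, hb⟩),
            Finset.card_erase_of_mem ha]
          have : 2 ≤ S.card := Finset.one_lt_card.2 ⟨a, ha, b, hb, hab⟩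
          omega
        have hc1 : S1.card ≤ ((S.erase a).erase b).card + 1 := Finset.card_insert_le _ _
        have hsum1 : ∑ m ∈ S1, m.2 ≤ ρ + ∑ m ∈ (S.erase a).erase b, m.2 := by
          by_cases hin : (l, ρ) ∈ (S.erase a).erase b
          · rw [hS1, Finset.insert_eq_of_mem hin]; omega
          · rw [hS1, Finset.sum_insert hin]
        have hmem1 : ∀ m ∈ S1, 1 ≤ m.2 ∧ m.1 + 2 * m.2 ≤ d := by
          intro m hm
          rcases Finset.mem_insert.1 hm with rfl | hm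
          · exact ⟨e1, e2⟩
          · exact hS m (Finset.mem_of_mem_erase (Finset.mem_of_mem_erase hm))
        have hdom : ∀ m ∈ S, ∃ m' ∈ S1, m'.1 ≤ m.1 ∧ m.1 + 2 * m.2 ≤ m'.1 + 2 * m'.2 := by
          intro m hm
          by_cases hma : m = a
          · exact ⟨(l, ρ), Finset.mem_insert_self _ _, by subst hma; exact e3, by subst hma; exact e5⟩
          · by_cases hmb : m = b
            · exact ⟨(l, ρ), Finset.mem_insert_self _ _, by subst hmb; exact e4,
                by subst hmb; exact e6⟩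
            · exact ⟨m, Finset.mem_insert_of_mem
                (Finset.mem_erase.2 ⟨hmb, Finset.mem_erase.2 ⟨hma, hm⟩⟩), le_rfl, le_rfl⟩
        rcases ih S1.card (by omega) S1 rfl hmem1 with ⟨S', g1, g2, g3, g4⟩ | ⟨g1, g2⟩
        · left
          refine ⟨S', g1, ?_, by omega, g4⟩
          intro m hm
          obtain ⟨m', hm', f1, f2⟩ := hdom m hm
          obtain ⟨m'', hm'', f3, f4⟩ := g2 m' hm'
          exact ⟨m'', hm'', by omega, by omega⟩
        · right
          exact ⟨g1, by omega⟩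

lemma toRem (D : ℕ) (k : ℕ) : ∀ (S : Finset (ℕ × ℕ)) (q : ℕ), S.card = k → q ≤ D →
    (∀ m ∈ S, q ≤ m.1 ∧ 1 ≤ m.2 ∧ m.1 + 2 * m.2 < D) →
    (∀ m ∈ S, ∀ m' ∈ S, m ≠ m' → m.1 + 2 * m.2 < m'.1 ∨ m'.1 + 2 * m'.2 < m.1) →
    ∃ rem e, q + len rem e = D ∧ rs rem = ∑ m ∈ S, m.2 ∧ (∀ m ∈ rem, 1 ≤ m.2) ∧
      ∀ m ∈ S, (m.1, m.1 + 2 * m.2) ∈ balls q rem := by
  induction k with
  | zero =>
    intro S q hk hq _ _
    rw [Finset.card_eq_zero] at hk
    subst hk
    exact ⟨[], D - q, by simp only [len]; omega, by simp [rs], by simp, by simp⟩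
  | succ k ih =>
    intro S q hk hq hS hdis
    have hne : S.Nonempty := by rw [← Finset.card_pos]; omega
    obtain ⟨a, ha, hmin⟩ := Finset.exists_min_image S (fun m => m.1) hne
    have haS := hS a ha
    obtain ⟨rem, e, r1, r2, r3, r4⟩ := ih (S.erase a) (a.1 + 2 * a.2 + 1)
      (by rw [Finset.card_erase_of_mem ha]; omega) (by omega)
      (by
        intro m hm
        have hmS := Finset.mem_of_mem_erase hm
        have h1 := hS m hmS
        have h2 := hmin m hmS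
        have h3 := hdis a ha m hmS (Ne.symm (Finset.ne_of_mem_erase hm))
        refine ⟨by omega, h1.2.1, h1.2.2⟩)
      (fun m hm m' hm' hne => hdis m (Finset.mem_of_mem_erase hm) m' (Finset.mem_of_mem_erase hm')
        hne)
    refine ⟨(a.1 - q, a.2) :: rem, e, ?_, ?_, ?_, ?_⟩
    · simp only [len]; omega
    · rw [rs_cons, r2, Finset.add_sum_erase S (fun m => m.2) ha]
    · intro m hm
      rcases List.mem_cons.1 hm with rfl | hm
      · exact haS.2.1
      · exact r3 m hm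
    · intro m hm
      have hq1 : q + (a.1 - q) = a.1 := by omega
      simp only [balls, hq1]
      by_cases hma : m = a
      · subst hma; simp
      · exact List.mem_cons_of_mem _ (r4 m (Finset.mem_erase.2 ⟨hma, hm⟩))

lemma cov_mono {L : List (ℕ × ℕ)} {a b a' b' : ℕ} (ha : a ≤ a') (hb : b' ≤ b) :
    cov L a b ≤ cov L a' b' := by
  unfold cov
  apply List.countP_mono_left
  intro m _ hm
  simp only [decide_eq_true_eq] at hm ⊢
  omega

lemma two_of_cov {L : List (ℕ × ℕ)} (hn : (L.map Prod.fst).Nodup) {a b : ℕ} (h : 2 ≤ cov L a b) :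
    ∃ m1 ∈ L, ∃ m2 ∈ L, m1.1 ≠ m2.1 ∧ (m1.1 ≤ a + m1.2 ∧ b ≤ m1.1 + m1.2) ∧
      (m2.1 ≤ a + m2.2 ∧ b ≤ m2.1 + m2.2) := by
  unfold cov at h
  rw [List.countP_eq_length_filter] at h
  have hsub : (L.filter (fun m => decide (m.1 ≤ a + m.2 ∧ b ≤ m.1 + m.2))).Sublist L :=
    List.filter_sublist
  have hMn := hn.sublist (hsub.map Prod.fst)
  have hmem : ∀ x ∈ L.filter (fun m => decide (m.1 ≤ a + m.2 ∧ b ≤ m.1 + m.2)),
      x ∈ L ∧ (x.1 ≤ a + x.2 ∧ b ≤ x.1 + x.2) := by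
    intro x hx
    have := List.mem_filter.1 hx
    exact ⟨this.1, by simpa using this.2⟩
  revert h hMn hmem
  generalize L.filter (fun m => decide (m.1 ≤ a + m.2 ∧ b ≤ m.1 + m.2)) = M
  intro h hMn hmem
  rcases M with _ | ⟨x, _ | ⟨y, t⟩⟩
  · simp at h
  · simp at h
  · obtain ⟨hx1, hx2⟩ := hmem x (by simp)
    obtain ⟨hy1, hy2⟩ := hmem y (by simp)
    refine ⟨x, hx1, y, hy1, ?_, hx2, hy2⟩
    intro hxy
    simp only [List.map_cons, List.nodup_cons, List.mem_cons] at hMn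
    exact hMn.1 (Or.inl hxy)

end Pool.Agent.N382.B2
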