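import Mathlib

/-!
# Two-fold covers of an interval by balls with distinct centres

A pair `(c, r)` is the ball with centre `c` and radius `r`, that is the interval `[c - r, c + r]`.
-/

set_option autoImplicit false

namespace Pool.Agent.N382.B2

/-- the number of balls of `L` which contain the interval `[a, b]` -/
def cov (L : List (ℕ × ℕ)) (a b : ℕ) : ℕ :=
  L.countP (fun m => decide (m.1 ≤ a + m.2 ∧ b ≤ m.1 + m.2))

lemma cov_nil (a b : ℕ) : cov [] a b = 0 := rfl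

lemma cov_cons (c r : ℕ) (L : List (ℕ × ℕ)) (a b : ℕ) :
    cov ((c, r) :: L) a b = cov L a b + if c ≤ a + r ∧ b ≤ c + r then 1 else 0 := by
  unfold cov
  rw [List.countP_cons]
  simp

/-- the sum of the radii -/
def rs (L : List (ℕ × ℕ)) : ℕ := (L.map Prod.snd).sum

lemma rs_nil : rs [] = 0 := rfl

lemma rs_cons (c r : ℕ) (L : List (ℕ × ℕ)) : rs ((c, r) :: L) = r + rs L := by
  simp [rs]

/-- `rem` is a list of gaps and radii `(g, r)`; the total length, the last gap being `e` -/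
def len : List (ℕ × ℕ) → ℕ → ℕ
  | [], e => e
  | (g, r) :: t, e => g + 2 * r + 1 + len t e

/-- the balls (as intervals) described by the list, starting at `q` -/
def balls : ℕ → List (ℕ × ℕ) → List (ℕ × ℕ)
  | _, [] => []
  | q, (g, r) :: t => (q + g, q + g + 2 * r) :: balls (q + g + 2 * r + 1) t

def fg : List (ℕ × ℕ) → ℕ → ℕ
  | [], e => e
  | (g, _) :: _, _ => g

def Ok (lo q n x y : ℕ) (B L : List (ℕ × ℕ)) : Prop :=
  (∀ m ∈ L, lo ≤ m.1 ∧ m.1 < q + n ∧ 1 ≤ m.2) ∧ (L.map Prod.fst).Nodup ∧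
  (∀ i, q ≤ i → i < q + n →
    2 ≤ cov L i i + (if i < q + x then 1 else 0) + (if i < q + y then 1 else 0)) ∧
  (∀ b ∈ B, 2 ≤ cov L b.1 b.2)

lemma ok_cons {lo q n x y : ℕ} {B L : List (ℕ × ℕ)} {lo' q' n' x' y' : ℕ} {B' : List (ℕ × ℕ)}
    (c r : ℕ) (h : Ok lo' q' n' x' y' B' L) (hlo : lo ≤ c) (hc : c < lo' ∨ q' + n' ≤ c)
    (hlo' : lo ≤ lo') (hn : c < q + n) (hqn : q' + n' = q + n) (hr : 1 ≤ r)
    (hcov : ∀ i, q ≤ i → i < q + n →
      2 ≤ cov ((c, r) :: L) i i + (if i < q + x then 1 else 0) + (if i < q + y then 1 else 0))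
    (hB : ∀ b ∈ B, 2 ≤ cov ((c, r) :: L) b.1 b.2) :
    Ok lo q n x y B ((c, r) :: L) := by
  obtain ⟨h1, h2, -, -⟩ := h
  refine ⟨?_, ?_, hcov, hB⟩
  · intro m hm
    rcases List.mem_cons.1 hm with rfl | hm
    · exact ⟨hlo, hn, hr⟩
    · obtain ⟨a, b, c⟩ := h1 m hm
      exact ⟨by omega, by omega, c⟩
  · rw [List.map_cons, List.nodup_cons]
    refine ⟨?_, h2⟩
    rw [List.mem_map]
    rintro ⟨m, hm, hm2⟩
    obtain ⟨a, b, -⟩ := h1 m hm
    simp only at hm2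
    omega

/-- state `{1, 0}` -/
def N1 (rem : List (ℕ × ℕ)) (e q : ℕ) : Prop :=
  ∃ L, Ok q q (len rem e) 1 0 (balls q rem) L ∧ 3 * rs L ≤ 2 * (len rem e + rs rem) + 2

/-- state `{2, y}` -/
def N2 (y : ℕ) (rem : List (ℕ × ℕ)) (e q : ℕ) : Prop :=
  ∃ L, Ok (q + 1) q (len rem e) 2 y (balls q rem) L ∧ 3 * rs L + y ≤ 2 * (len rem e + rs rem) + 1

/-- state `{2, y}` with a pending ball `(C, R)` -/
def P2 (y : ℕ) (rem : List (ℕ × ℕ)) (e q C R : ℕ) : Prop :=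
  ∃ L, Ok C q (len rem e) 0 y (balls q rem) L ∧ 3 * rs L + y ≤ 2 * (len rem e + rs rem) + 1 + 3 * R ∧
    ∀ a b, C ≤ a + R → b ≤ C + R → 1 ≤ cov L a b

end Pool.Agent.N382.B2
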