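import Pool.Agent.N382.B2.Merge

set_option autoImplicit false

namespace Pool.Agent.N382.B2

open Finset

lemma toF (d : ℕ) : ∀ (L : List (ℕ × ℕ)), (L.map Prod.fst).Nodup → (∀ m ∈ L, m.1 < d + 1) →
    ∃ F : ℕ → ℕ, (∀ m ∈ L, F m.1 = m.2) ∧ (∀ c, c ∉ L.map Prod.fst → F c = 0) ∧
      ∑ c ∈ range (d + 1), F c = rs L := by
  intro L
  induction L with
  | nil => intro _ _; exact ⟨fun _ => 0, by simp, by simp, by simp [rs]⟩
  | cons m t ih =>
    intro hn hm
    obtain ⟨c, r⟩ := m
    rw [List.map_cons, List.nodup_cons] at hn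
    obtain ⟨F, h1, h2, h3⟩ := ih hn.2 (fun m hmt => hm m (List.mem_cons_of_mem _ hmt))
    refine ⟨Function.update F c r, ?_, ?_, ?_⟩
    · intro m hmt
      rcases List.mem_cons.1 hmt with rfl | hmt
      · simp
      · have hne : m.1 ≠ c := by
          intro he
          apply hn.1
          simp only
          rw [← he]
          exact List.mem_map_of_mem hmt
        rw [Function.update_of_ne hne]
        exact h1 m hmt
    · intro x hx
      rw [List.map_cons, List.mem_cons, not_or] at hx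
      rw [Function.update_of_ne hx.1]
      exact h2 x hx.2
    · have hc : c ∈ range (d + 1) := Finset.mem_range.2 (hm (c, r) (by simp))
      rw [Finset.sum_update_of_mem hc, rs_cons, ← h3]
      congr 1
      rw [← Finset.add_sum_erase (range (d + 1)) F hc, h2 c hn.1, zero_add,
        Finset.sdiff_singleton_eq_erase]

theorem oneD (d : ℕ) (hd : 1 ≤ d) (H : ℕ → ℕ) (hH : ∀ i ≤ d, H i ≤ i ∧ i + H i ≤ d) :
    ∃ F : ℕ → ℕ,
      (∀ i ≤ d, ∃ c1 c2, c1 ≠ c2 ∧ c1 ≤ d ∧ c2 ≤ d ∧ 0 < F c1 ∧ 0 < F c2 ∧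
        (c1 + H i ≤ i + F c1 ∧ i + H i ≤ c1 + F c1) ∧
        (c2 + H i ≤ i + F c2 ∧ i + H i ≤ c2 + F c2)) ∧
      3 * ∑ c ∈ range (d + 1), F c ≤ 2 * (d + 1 + ∑ i ∈ range (d + 1), H i) + 4 := by
  set S0 : Finset (ℕ × ℕ) :=
    ((range (d + 1)).filter (fun i => 0 < H i)).image (fun i => (i - H i, H i)) with hS0
  have hinj : Set.InjOn (fun i => (i - H i, H i))
      (((range (d + 1)).filter (fun i => 0 < H i) : Finset ℕ) : Set ℕ) := by
    intro i hi j hj hij
    simp only [Finset.coe_filter, Finset.mem_range, Set.mem_ofPred_eq] at hi hj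
    simp only [Prod.mk.injEq] at hij
    have h1 := hH i (by omega)
    have h2 := hH j (by omega)
    omega
  have hsum : ∑ m ∈ S0, m.2 ≤ ∑ i ∈ range (d + 1), H i := by
    rw [hS0, Finset.sum_image hinj]
    exact Finset.sum_le_sum_of_subset (Finset.filter_subset _ _)
  have hmem : ∀ m ∈ S0, 1 ≤ m.2 ∧ m.1 + 2 * m.2 ≤ d := by
    intro m hm
    rw [hS0, Finset.mem_image] at hm
    obtain ⟨i, hi, rfl⟩ := hm
    rw [Finset.mem_filter, Finset.mem_range] at hi
    have h1 := hH i (by omega)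
    simp only
    omega
  rcases merge d S0.card S0 rfl hmem with ⟨S', g1, g2, g3, g4⟩ | ⟨g1, g2⟩
  · obtain ⟨rem, e, r1, r2, r3, r4⟩ := toRem (d + 1) S'.card S' 0 rfl (by omega)
      (fun m hm => ⟨by omega, (g1 m hm).1, by have := (g1 m hm).2; omega⟩) g4
    obtain ⟨L, ⟨c1, c2, c3, c4⟩, c5⟩ := cover rem e r3 (by omega)
    have hlen : len rem e = d + 1 := by omega
    rw [hlen] at c1 c3 c5
    obtain ⟨F, f1, -, f3⟩ := toF d L c2 (fun m hm => by have := (c1 m hm).2.1; omega)
    refine ⟨F, ?_, by rw [f3]; omega⟩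
    intro i hi
    have hi' := hH i hi
    have hcov : 2 ≤ cov L (i - H i) (i + H i) := by
      by_cases h0 : 0 < H i
      · obtain ⟨m', hm', k1, k2⟩ := g2 (i - H i, H i) (by
          rw [hS0, Finset.mem_image]
          exact ⟨i, Finset.mem_filter.2 ⟨Finset.mem_range.2 (by omega), h0⟩, rfl⟩)
        simp only at k1 k2
        exact le_trans (c4 _ (r4 m' hm')) (cov_mono (by simpa using k1) (by simp only; omega))
      · have := c3 i (by omega) (by omega)
        rw [if_neg (by omega)] at this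
        have h00 : H i = 0 := by omega
        rw [h00]
        simpa using this
    obtain ⟨m1, hm1, m2, hm2, hne, hA, hB⟩ := two_of_cov c2 hcov
    have b1 := c1 m1 hm1
    have b2 := c1 m2 hm2
    refine ⟨m1.1, m2.1, hne, by omega, by omega, ?_, ?_, ?_, ?_⟩
    · rw [f1 m1 hm1]; omega
    · rw [f1 m2 hm2]; omega
    · rw [f1 m1 hm1]; omega
    · rw [f1 m2 hm2]; omega
  · obtain ⟨k, hk⟩ : ∃ k, d = 2 * k + 1 := ⟨d / 2, by omega⟩
    refine ⟨fun c => if c = k ∨ c = k + 1 then k + 1 else 0, ?_, ?_⟩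
    · intro i hi
      have h1 := hH i hi
      refine ⟨k, k + 1, by omega, by omega, by omega, by simp, by simp, ?_, ?_⟩
      · simp; omega
      · simp; omega
    · have : ∑ c ∈ range (d + 1), (if c = k ∨ c = k + 1 then k + 1 else 0) = (k + 1) + (k + 1) := by
        rw [← Finset.sum_filter]
        have hf : (range (d + 1)).filter (fun c => c = k ∨ c = k + 1) = {k, k + 1} := by
          ext c
          simp only [Finset.mem_filter, Finset.mem_range, Finset.mem_insert, Finset.mem_singleton]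
          omega
        rw [hf, Finset.sum_pair (by omega)]
      rw [this]
      omega

end Pool.Agent.N382.B2
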