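import Pool.Agent.N382.B2.OneD

set_option autoImplicit false

namespace Pool.Agent.N382.B2


lemma ok1 {lo q n x y lo' : ℕ} {B L : List (ℕ × ℕ)} {c r : ℕ}
    (h1 : ∀ m ∈ L, lo' ≤ m.1 ∧ m.1 < q + n ∧ 1 ≤ m.2) (h2 : (L.map Prod.fst).Nodup)
    (hlo : lo ≤ c) (hc : c < lo') (hcn : c < q + n) (hr : 1 ≤ r)
    (hcov : ∀ i, q ≤ i → i < q + n →
      2 ≤ cov ((c, r) :: L) i i + (if i < q + x then 1 else 0) + (if i < q + y then 1 else 0))
    (hB : ∀ b ∈ B, 2 ≤ cov ((c, r) :: L) b.1 b.2) :
    Ok lo q n x y B ((c, r) :: L) := by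
  refine ⟨?_, ?_, hcov, hB⟩
  · intro m hm
    rcases List.mem_cons.1 hm with rfl | hm
    · exact ⟨hlo, hcn, hr⟩
    · obtain ⟨a, b, c⟩ := h1 m hm
      exact ⟨by omega, b, c⟩
  · rw [List.map_cons, List.nodup_cons]
    refine ⟨?_, h2⟩
    rw [List.mem_map]
    rintro ⟨m, hm, hm2⟩
    obtain ⟨a, b, -⟩ := h1 m hm
    simp only at hm2
    omega

lemma ok2 {lo q n x y lo' : ℕ} {B L : List (ℕ × ℕ)} {c r c2 r2 : ℕ}
    (h1 : ∀ m ∈ L, lo' ≤ m.1 ∧ m.1 < q + n ∧ 1 ≤ m.2) (h2 : (L.map Prod.fst).Nodup)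
    (hlo : lo ≤ c) (hc : c < c2) (hc2 : c2 < lo') (hcn : c2 < q + n) (hr : 1 ≤ r) (hr2 : 1 ≤ r2)
    (hcov : ∀ i, q ≤ i → i < q + n →
      2 ≤ cov ((c, r) :: (c2, r2) :: L) i i + (if i < q + x then 1 else 0)
        + (if i < q + y then 1 else 0))
    (hB : ∀ b ∈ B, 2 ≤ cov ((c, r) :: (c2, r2) :: L) b.1 b.2) :
    Ok lo q n x y B ((c, r) :: (c2, r2) :: L) := by
  have h := ok1 (lo := c2) (q := q) (n := n) (x := x + n) (y := y + n) (B := []) (c := c2) (r := r2)
    h1 h2 le_rfl hc2 hcn hr2 (by intro i h1 h2; split_ifs <;> omega) (by simp)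
  exact ok1 h.1 h.2.1 hlo hc (by omega) hr hcov hB

lemma ok3 {lo q n x y lo' : ℕ} {B L : List (ℕ × ℕ)} {c r c2 r2 c3 r3 : ℕ}
    (h1 : ∀ m ∈ L, lo' ≤ m.1 ∧ m.1 < q + n ∧ 1 ≤ m.2) (h2 : (L.map Prod.fst).Nodup)
    (hlo : lo ≤ c) (hc : c < c2) (hc2 : c2 < c3) (hc3 : c3 < lo') (hcn : c3 < q + n) (hr : 1 ≤ r)
    (hr2 : 1 ≤ r2) (hr3 : 1 ≤ r3)
    (hcov : ∀ i, q ≤ i → i < q + n →
      2 ≤ cov ((c, r) :: (c2, r2) :: (c3, r3) :: L) i i + (if i < q + x then 1 else 0)
        + (if i < q + y then 1 else 0))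
    (hB : ∀ b ∈ B, 2 ≤ cov ((c, r) :: (c2, r2) :: (c3, r3) :: L) b.1 b.2) :
    Ok lo q n x y B ((c, r) :: (c2, r2) :: (c3, r3) :: L) := by
  have h := ok2 (lo := c2) (q := q) (n := n) (x := x + n) (y := y + n) (B := []) (c := c2) (r := r2)
    (c2 := c3) (r2 := r3)
    h1 h2 le_rfl hc2 hc3 hcn hr2 hr3 (by intro i h1 h2; split_ifs <;> omega) (by simp)
  exact ok1 h.1 h.2.1 hlo hc (by omega) hr hcov hB

lemma nilm {lo n : ℕ} : ∀ m ∈ ([] : List (ℕ × ℕ)), lo ≤ m.1 ∧ m.1 < n ∧ 1 ≤ m.2 := by simp

/-! ### the end -/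

lemma n1_nil (e : ℕ) : ∀ q, N1 [] e q := by
  induction e using Nat.strong_induction_on with
  | _ e ih =>
    intro q
    rcases Nat.lt_or_ge e 3 with he | he
    · interval_cases e
      · refine ⟨[], ⟨nilm, by simp, ?_, by simp [balls]⟩, by simp [rs, len]⟩
        intro i h1 h2; simp only [len] at h2; omega
      · refine ⟨[(q, 1)], ok1 (lo' := q + 1) nilm (by simp) (by omega) (by omega) (by simp [len])
          (by omega) ?_ (by simp [balls]), by simp [rs, len]⟩
        intro i h1 h2; simp only [len] at h2; (simp only [cov_cons, cov_nil]; split_ifs <;> omega)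
      · refine ⟨[(q, 1), (q + 1, 1)], ok2 (lo' := q + 2) nilm (by simp) (by omega) (by omega)
          (by omega) (by simp [len]) (by omega) (by omega) ?_ (by simp [balls]), by simp [rs, len]⟩
        intro i h1 h2; simp only [len] at h2; (simp only [cov_cons, cov_nil]; split_ifs <;> omega)
    · obtain ⟨L, ⟨h1, h2, h3, -⟩, h5⟩ := ih (e - 3) (by omega) (q + 3)
      simp only [len] at h1 h3 h5
      have hq : q + 3 + (e - 3) = q + e := by omega
      rw [hq] at h1 h3
      refine ⟨(q + 1, 1) :: (q + 2, 1) :: L, ok2 (lo' := q + 3) (by simpa [len] using h1) h2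
        (by omega) (by omega) (by omega) (by simp only [len]; omega) (by omega) (by omega) ?_
        (by simp [balls]), ?_⟩
      · intro i hi1 hi2
        simp only [len] at hi2
        by_cases hi : q + 3 ≤ i
        · have h := h3 i hi hi2
          (simp only [cov_cons, cov_nil]; split_ifs at h ⊢ <;> omega)
        · (simp only [cov_cons, cov_nil]; split_ifs <;> omega)
      · simp only [rs_cons, len]
        simp only [rs_nil] at h5 ⊢
        omega

lemma n2_nil (y : ℕ) (hy : y ≤ 1) (e : ℕ) : ∀ q, 2 ≤ e → N2 y [] e q := by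
  induction e using Nat.strong_induction_on with
  | _ e ih =>
    intro q he2
    rcases Nat.lt_or_ge e 5 with he | he
    · interval_cases e
      · refine ⟨[(q + 1, 1)], ok1 (lo' := q + 2) nilm (by simp) (by omega) (by omega) (by simp [len])
          (by omega) ?_ (by simp [balls]), by simp [rs, len] <;> omega⟩
        intro i h1 h2; simp only [len] at h2; (simp only [cov_cons, cov_nil]; split_ifs <;> omega)
      · refine ⟨[(q + 1, 1), (q + 2, 1)], ok2 (lo' := q + 3) nilm (by simp) (by omega) (by omega)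
          (by omega) (by simp [len]) (by omega) (by omega) ?_ (by simp [balls]),
          by simp [rs, len] <;> omega⟩
        intro i h1 h2; simp only [len] at h2; (simp only [cov_cons, cov_nil]; split_ifs <;> omega)
      · interval_cases y
        · refine ⟨[(q + 1, 1), (q + 2, 1), (q + 3, 1)], ok3 (lo' := q + 4) nilm (by simp) (by omega)
            (by omega) (by omega) (by omega) (by simp [len]) (by omega) (by omega) (by omega) ?_
            (by simp [balls]), by simp [rs, len]⟩
          intro i h1 h2; simp only [len] at h2; (simp only [cov_cons, cov_nil]; split_ifs <;> omega)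
        · refine ⟨[(q + 2, 1), (q + 3, 1)], ok2 (lo' := q + 4) nilm (by simp) (by omega) (by omega)
            (by omega) (by simp [len]) (by omega) (by omega) ?_ (by simp [balls]),
            by simp [rs, len]⟩
          intro i h1 h2; simp only [len] at h2; (simp only [cov_cons, cov_nil]; split_ifs <;> omega)
    · obtain ⟨L, ⟨h1, h2, h3, -⟩, h5⟩ := ih (e - 3) (by omega) (q + 3) (by omega)
      simp only [len] at h1 h3 h5
      have hq : q + 3 + (e - 3) = q + e := by omega
      rw [hq] at h1 h3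
      refine ⟨(q + y + 1, 1) :: (q + 3, 1) :: L, ok2 (lo' := q + 3 + 1) (by simpa [len] using h1) h2
        (by omega) (by omega) (by omega) (by simp only [len]; omega) (by omega) (by omega) ?_
        (by simp [balls]), ?_⟩
      · intro i hi1 hi2
        simp only [len] at hi2
        by_cases hi : q + 3 ≤ i
        · have h := h3 i hi hi2
          (simp only [cov_cons, cov_nil]; split_ifs at h ⊢ <;> omega)
        · (simp only [cov_cons, cov_nil]; split_ifs <;> omega)
      · simp only [rs_cons, len]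
        simp only [rs_nil] at h5 ⊢
        omega

lemma p2_nil (y : ℕ) (hy : y ≤ 1) (e q C R : ℕ) (hCR : C + R = q + 1) (hC : C < q) :
    P2 y [] e q C R := by
  rcases Nat.lt_or_ge e 2 with he | he
  · interval_cases e
    · refine ⟨[(C, R)], ok1 (lo' := q) nilm (by simp) le_rfl hC (by simp [len]; omega) (by omega)
        ?_ (by simp [balls]), by simp [rs, len] <;> omega, ?_⟩
      · intro i h1 h2; simp only [len] at h2; omega
      · intro a b ha hb; (simp only [cov_cons, cov_nil]; split_ifs <;> omega)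
    · interval_cases y
      · refine ⟨[(C, R), (q, 1)], ok2 (lo' := q + 1) nilm (by simp) le_rfl hC (by omega)
          (by simp [len]) (by omega) (by omega) ?_ (by simp [balls]), by simp [rs, len] <;> omega, ?_⟩
        · intro i h1 h2; simp only [len] at h2; (simp only [cov_cons, cov_nil]; split_ifs <;> omega)
        · intro a b ha hb; (simp only [cov_cons, cov_nil]; split_ifs <;> omega)
      · refine ⟨[(C, R)], ok1 (lo' := q) nilm (by simp) le_rfl hC (by simp [len]; omega) (by omega)
          ?_ (by simp [balls]), by simp [rs, len] <;> omega, ?_⟩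
        · intro i h1 h2; simp only [len] at h2; (simp only [cov_cons, cov_nil]; split_ifs <;> omega)
        · intro a b ha hb; (simp only [cov_cons, cov_nil]; split_ifs <;> omega)
  · obtain ⟨L, ⟨h1, h2, h3, -⟩, h5⟩ := n2_nil y hy e q he
    refine ⟨(C, R) :: L, ok1 (lo' := q + 1) h1 h2 le_rfl (by omega) (by simp only [len]; omega)
      (by omega) ?_ (by simp [balls]), by rw [rs_cons]; omega, ?_⟩
    · intro i hi1 hi2
      have h := h3 i hi1 hi2
      (simp only [cov_cons, cov_nil]; split_ifs at h ⊢ <;> omega)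
    · intro a b ha hb; (simp only [cov_cons, cov_nil]; split_ifs <;> omega)

end Pool.Agent.N382.B2
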