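import Pool.Agent.N382.B2.Steps

set_option autoImplicit false

namespace Pool.Agent.N382.B2

section
variable (t : List (ℕ × ℕ)) (e r : ℕ) (hr : 1 ≤ r)
include hr

/-- state `{1, 0}` -/
lemma n1_cons (H1 : ∀ q, N1 t e q) (H2 : ∀ y q C R, y ≤ 1 → C + R = q + 1 → C < q → P2 y t e q C R)
    (g : ℕ) : ∀ q, N1 ((g, r) :: t) e q := by
  induction g using Nat.strong_induction_on with
  | _ g ih =>
    intro q
    rcases Nat.lt_or_ge g 3 with hg | hg
    · interval_cases g
      · -- g = 0
        obtain ⟨L, ⟨h1, h2, h3, h4⟩, h5, h6⟩ :=
          H2 0 (q + 0 + 2 * r + 1) (q + r + 1) (r + 1) (by omega) (by omega) (by omega)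
        have hq : q + 0 + 2 * r + 1 + len t e = q + len ((0, r) :: t) e := by simp only [len]; omega
        rw [hq] at h1 h3
        refine ⟨(q + r, r) :: L, ok1 h1 h2 (by omega) (by omega) (by simp only [len]; omega) hr
          ?_ ?_, ?_⟩
        · intro i hi1 hi2
          by_cases hi : q + 0 + 2 * r + 1 ≤ i
          · have h := h3 i hi hi2
            (simp only [cov_cons, cov_nil]; split_ifs at h ⊢ <;> omega)
          · have h := h6 i i (by omega) (by omega)
            (simp only [cov_cons, cov_nil]; split_ifs <;> omega)
        · intro b hb
          simp only [balls, List.mem_cons] at hb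
          rcases hb with rfl | hb
          · have h := h6 (q + 0) (q + 0 + 2 * r) (by omega) (by omega)
            (simp only [cov_cons, cov_nil]; split_ifs <;> omega)
          · have h := h4 b hb
            (simp only [cov_cons, cov_nil]; split_ifs <;> omega)
        · simp only [rs_cons, len]
          omega
      · -- g = 1
        obtain ⟨L, ⟨h1, h2, h3, h4⟩, h5, h6⟩ :=
          H2 1 (q + 1 + 2 * r + 1) (q + r + 2) (r + 1) (by omega) (by omega) (by omega)
        have hq : q + 1 + 2 * r + 1 + len t e = q + len ((1, r) :: t) e := by simp only [len]; omega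
        rw [hq] at h1 h3
        refine ⟨(q + r + 1, r + 1) :: L, ok1 h1 h2 (by omega) (by omega)
          (by simp only [len]; omega) (by omega) ?_ ?_, ?_⟩
        · intro i hi1 hi2
          by_cases hi : q + 1 + 2 * r + 1 ≤ i
          · have h := h3 i hi hi2
            (simp only [cov_cons, cov_nil]; split_ifs at h ⊢ <;> omega)
          · by_cases hi' : i = q
            · (simp only [cov_cons, cov_nil]; split_ifs <;> omega)
            · have h := h6 i i (by omega) (by omega)
              (simp only [cov_cons, cov_nil]; split_ifs <;> omega)
        · intro b hb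
          simp only [balls, List.mem_cons] at hb
          rcases hb with rfl | hb
          · have h := h6 (q + 1) (q + 1 + 2 * r) (by omega) (by omega)
            (simp only [cov_cons, cov_nil]; split_ifs <;> omega)
          · have h := h4 b hb
            (simp only [cov_cons, cov_nil]; split_ifs <;> omega)
        · simp only [rs_cons, len]
          omega
      · -- g = 2
        obtain ⟨L, ⟨h1, h2, h3, h4⟩, h5⟩ := H1 (q + 2 + 2 * r + 1)
        have hq : q + 2 + 2 * r + 1 + len t e = q + len ((2, r) :: t) e := by simp only [len]; omega
        rw [hq] at h1 h3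
        refine ⟨(q + r + 1, r + 1) :: (q + r + 2, r + 1) :: L, ok2 h1 h2 (by omega) (by omega)
          (by omega) (by simp only [len]; omega) (by omega) (by omega) ?_ ?_, ?_⟩
        · intro i hi1 hi2
          by_cases hi : q + 2 + 2 * r + 1 ≤ i
          · have h := h3 i hi hi2
            (simp only [cov_cons, cov_nil]; split_ifs at h ⊢ <;> omega)
          · (simp only [cov_cons, cov_nil]; split_ifs <;> omega)
        · intro b hb
          simp only [balls, List.mem_cons] at hb
          rcases hb with rfl | hb
          · (simp only [cov_cons, cov_nil]; split_ifs <;> omega)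
          · have h := h4 b hb
            (simp only [cov_cons, cov_nil]; split_ifs <;> omega)
        · simp only [rs_cons, len]
          omega
    · obtain ⟨L, ⟨h1, h2, h3, h4⟩, h5⟩ := ih (g - 3) (by omega) (q + 3)
      have hq : q + 3 + len ((g - 3, r) :: t) e = q + len ((g, r) :: t) e := by
        simp only [len]; omega
      have hb' : balls (q + 3) ((g - 3, r) :: t) = balls q ((g, r) :: t) := by
        simp only [balls]
        rw [show q + 3 + (g - 3) = q + g by omega]
      rw [hq] at h1 h3
      rw [hb'] at h4
      refine ⟨(q + 1, 1) :: (q + 2, 1) :: L, ok2 h1 h2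
        (by omega) (by omega) (by omega) (by simp only [len]; omega) (by omega) (by omega) ?_ ?_, ?_⟩
      · intro i hi1 hi2
        by_cases hi : q + 3 ≤ i
        · have h := h3 i hi hi2
          (simp only [cov_cons, cov_nil]; split_ifs at h ⊢ <;> omega)
        · (simp only [cov_cons, cov_nil]; split_ifs <;> omega)
      · intro b hb
        have h := h4 b hb
        (simp only [cov_cons, cov_nil]; split_ifs <;> omega)
      · simp only [rs_cons, len] at h5 ⊢
        omega

/-- state `{2, y}` -/
lemma n2_cons (H1 : ∀ q, N1 t e q) (H2 : ∀ y q C R, y ≤ 1 → C + R = q + 1 → C < q → P2 y t e q C R)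
    (y : ℕ) (hy : y ≤ 1) (g : ℕ) : ∀ q, 2 ≤ g → N2 y ((g, r) :: t) e q := by
  induction g using Nat.strong_induction_on with
  | _ g ih =>
    intro q hg2
    rcases Nat.lt_or_ge g 5 with hg | hg
    · interval_cases g
      · -- g = 2
        interval_cases y
        · obtain ⟨L, ⟨h1, h2, h3, h4⟩, h5, h6⟩ :=
            H2 0 (q + 2 + 2 * r + 1) (q + r + 3) (r + 1) (by omega) (by omega) (by omega)
          have hq : q + 2 + 2 * r + 1 + len t e = q + len ((2, r) :: t) e := by
            simp only [len]; omega
          rw [hq] at h1 h3
          refine ⟨(q + r + 1, r + 1) :: L, ok1 h1 h2 (by omega) (by omega)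
            (by simp only [len]; omega) (by omega) ?_ ?_, ?_⟩
          · intro i hi1 hi2
            by_cases hi : q + 2 + 2 * r + 1 ≤ i
            · have h := h3 i hi hi2
              (simp only [cov_cons, cov_nil]; split_ifs at h ⊢ <;> omega)
            · by_cases hi' : i < q + 2
              · (simp only [cov_cons, cov_nil]; split_ifs <;> omega)
              · have h := h6 i i (by omega) (by omega)
                (simp only [cov_cons, cov_nil]; split_ifs <;> omega)
          · intro b hb
            simp only [balls, List.mem_cons] at hb
            rcases hb with rfl | hb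
            · have h := h6 (q + 2) (q + 2 + 2 * r) (by omega) (by omega)
              (simp only [cov_cons, cov_nil]; split_ifs <;> omega)
            · have h := h4 b hb
              (simp only [cov_cons, cov_nil]; split_ifs <;> omega)
          · simp only [rs_cons, len]
            omega
        · obtain ⟨L, ⟨h1, h2, h3, h4⟩, h5, h6⟩ :=
            H2 1 (q + 2 + 2 * r + 1) (q + r + 3) (r + 1) (by omega) (by omega) (by omega)
          have hq : q + 2 + 2 * r + 1 + len t e = q + len ((2, r) :: t) e := by
            simp only [len]; omega
          rw [hq] at h1 h3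
          refine ⟨(q + r + 2, r + 1) :: L, ok1 h1 h2 (by omega) (by omega)
            (by simp only [len]; omega) (by omega) ?_ ?_, ?_⟩
          · intro i hi1 hi2
            by_cases hi : q + 2 + 2 * r + 1 ≤ i
            · have h := h3 i hi hi2
              (simp only [cov_cons, cov_nil]; split_ifs at h ⊢ <;> omega)
            · by_cases hi' : i < q + 2
              · (simp only [cov_cons, cov_nil]; split_ifs <;> omega)
              · have h := h6 i i (by omega) (by omega)
                (simp only [cov_cons, cov_nil]; split_ifs <;> omega)
          · intro b hb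
            simp only [balls, List.mem_cons] at hb
            rcases hb with rfl | hb
            · have h := h6 (q + 2) (q + 2 + 2 * r) (by omega) (by omega)
              (simp only [cov_cons, cov_nil]; split_ifs <;> omega)
            · have h := h4 b hb
              (simp only [cov_cons, cov_nil]; split_ifs <;> omega)
          · simp only [rs_cons, len]
            omega
      · -- g = 3
        interval_cases y
        · obtain ⟨L, ⟨h1, h2, h3, h4⟩, h5, h6⟩ :=
            H2 1 (q + 3 + 2 * r + 1) (q + r + 4) (r + 1) (by omega) (by omega) (by omega)
          have hq : q + 3 + 2 * r + 1 + len t e = q + len ((3, r) :: t) e := by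
            simp only [len]; omega
          rw [hq] at h1 h3
          refine ⟨(q + 1, 1) :: (q + r + 3, r + 1) :: L, ok2 h1 h2 (by omega) (by omega) (by omega)
            (by simp only [len]; omega) (by omega) (by omega) ?_ ?_, ?_⟩
          · intro i hi1 hi2
            by_cases hi : q + 3 + 2 * r + 1 ≤ i
            · have h := h3 i hi hi2
              (simp only [cov_cons, cov_nil]; split_ifs at h ⊢ <;> omega)
            · by_cases hi' : i < q + 3
              · (simp only [cov_cons, cov_nil]; split_ifs <;> omega)
              · have h := h6 i i (by omega) (by omega)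
                (simp only [cov_cons, cov_nil]; split_ifs <;> omega)
          · intro b hb
            simp only [balls, List.mem_cons] at hb
            rcases hb with rfl | hb
            · have h := h6 (q + 3) (q + 3 + 2 * r) (by omega) (by omega)
              (simp only [cov_cons, cov_nil]; split_ifs <;> omega)
            · have h := h4 b hb
              (simp only [cov_cons, cov_nil]; split_ifs <;> omega)
          · simp only [rs_cons, len]
            omega
        · obtain ⟨L, ⟨h1, h2, h3, h4⟩, h5⟩ := H1 (q + 3 + 2 * r + 1)
          have hq : q + 3 + 2 * r + 1 + len t e = q + len ((3, r) :: t) e := by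
            simp only [len]; omega
          rw [hq] at h1 h3
          refine ⟨(q + r + 2, r + 1) :: (q + r + 3, r + 1) :: L, ok2 h1 h2 (by omega) (by omega)
            (by omega) (by simp only [len]; omega) (by omega) (by omega) ?_ ?_, ?_⟩
          · intro i hi1 hi2
            by_cases hi : q + 3 + 2 * r + 1 ≤ i
            · have h := h3 i hi hi2
              (simp only [cov_cons, cov_nil]; split_ifs at h ⊢ <;> omega)
            · (simp only [cov_cons, cov_nil]; split_ifs <;> omega)
          · intro b hb
            simp only [balls, List.mem_cons] at hb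
            rcases hb with rfl | hb
            · (simp only [cov_cons, cov_nil]; split_ifs <;> omega)
            · have h := h4 b hb
              (simp only [cov_cons, cov_nil]; split_ifs <;> omega)
          · simp only [rs_cons, len]
            omega
      · -- g = 4
        interval_cases y
        · obtain ⟨L, ⟨h1, h2, h3, h4⟩, h5⟩ := H1 (q + 4 + 2 * r + 1)
          have hq : q + 4 + 2 * r + 1 + len t e = q + len ((4, r) :: t) e := by
            simp only [len]; omega
          rw [hq] at h1 h3
          refine ⟨(q + 1, 1) :: (q + r + 3, r + 1) :: (q + r + 4, r + 1) :: L,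
            ok3 h1 h2 (by omega) (by omega) (by omega)
            (by omega) (by simp only [len]; omega) (by omega) (by omega) (by omega) ?_ ?_, ?_⟩
          · intro i hi1 hi2
            by_cases hi : q + 4 + 2 * r + 1 ≤ i
            · have h := h3 i hi hi2
              (simp only [cov_cons, cov_nil]; split_ifs at h ⊢ <;> omega)
            · (simp only [cov_cons, cov_nil]; split_ifs <;> omega)
          · intro b hb
            simp only [balls, List.mem_cons] at hb
            rcases hb with rfl | hb
            · (simp only [cov_cons, cov_nil]; split_ifs <;> omega)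
            · have h := h4 b hb
              (simp only [cov_cons, cov_nil]; split_ifs <;> omega)
          · simp only [rs_cons, len]
            omega
        · obtain ⟨L, ⟨h1, h2, h3, h4⟩, h5, h6⟩ :=
            H2 0 (q + 4 + 2 * r + 1) (q + r + 5) (r + 1) (by omega) (by omega) (by omega)
          have hq : q + 4 + 2 * r + 1 + len t e = q + len ((4, r) :: t) e := by
            simp only [len]; omega
          rw [hq] at h1 h3
          refine ⟨(q + 2, 1) :: (q + r + 3, r + 1) :: L, ok2 h1 h2 (by omega) (by omega) (by omega)
            (by simp only [len]; omega) (by omega) (by omega) ?_ ?_, ?_⟩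
          · intro i hi1 hi2
            by_cases hi : q + 4 + 2 * r + 1 ≤ i
            · have h := h3 i hi hi2
              (simp only [cov_cons, cov_nil]; split_ifs at h ⊢ <;> omega)
            · by_cases hi' : i < q + 4
              · (simp only [cov_cons, cov_nil]; split_ifs <;> omega)
              · have h := h6 i i (by omega) (by omega)
                (simp only [cov_cons, cov_nil]; split_ifs <;> omega)
          · intro b hb
            simp only [balls, List.mem_cons] at hb
            rcases hb with rfl | hb
            · have h := h6 (q + 4) (q + 4 + 2 * r) (by omega) (by omega)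
              (simp only [cov_cons, cov_nil]; split_ifs <;> omega)
            · have h := h4 b hb
              (simp only [cov_cons, cov_nil]; split_ifs <;> omega)
          · simp only [rs_cons, len]
            omega
    · obtain ⟨L, ⟨h1, h2, h3, h4⟩, h5⟩ := ih (g - 3) (by omega) (q + 3) (by omega)
      have hq : q + 3 + len ((g - 3, r) :: t) e = q + len ((g, r) :: t) e := by
        simp only [len]; omega
      have hb' : balls (q + 3) ((g - 3, r) :: t) = balls q ((g, r) :: t) := by
        simp only [balls]
        rw [show q + 3 + (g - 3) = q + g by omega]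
      rw [hq] at h1 h3
      rw [hb'] at h4
      refine ⟨(q + y + 1, 1) :: (q + 3, 1) :: L, ok2 h1 h2
        (by omega) (by omega) (by omega) (by simp only [len]; omega) (by omega) (by omega) ?_ ?_, ?_⟩
      · intro i hi1 hi2
        by_cases hi : q + 3 ≤ i
        · have h := h3 i hi hi2
          (simp only [cov_cons, cov_nil]; split_ifs at h ⊢ <;> omega)
        · (simp only [cov_cons, cov_nil]; split_ifs <;> omega)
      · intro b hb
        have h := h4 b hb
        (simp only [cov_cons, cov_nil]; split_ifs <;> omega)
      · simp only [rs_cons, len] at h5 ⊢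
        omega

/-- state `{2, y}` with a pending ball -/
lemma p2_cons (H1 : ∀ q, N1 t e q) (H2 : ∀ y q C R, y ≤ 1 → C + R = q + 1 → C < q → P2 y t e q C R)
    (y : ℕ) (hy : y ≤ 1) (g q C R : ℕ) (hCR : C + R = q + 1) (hC : C < q) :
    P2 y ((g, r) :: t) e q C R := by
  rcases Nat.lt_or_ge g 2 with hg | hg
  · interval_cases g
    · obtain ⟨L, ⟨h1, h2, h3, h4⟩, h5⟩ := H1 (q + 0 + 2 * r + 1)
      have hq : q + 0 + 2 * r + 1 + len t e = q + len ((0, r) :: t) e := by simp only [len]; omega
      rw [hq] at h1 h3
      refine ⟨(C + r, R + r) :: (q + r, r) :: L, ok2 h1 h2 (by omega) (by omega)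
        (by omega) (by simp only [len]; omega) (by omega) (by omega) ?_ ?_, ?_, ?_⟩
      · intro i hi1 hi2
        by_cases hi : q + 0 + 2 * r + 1 ≤ i
        · have h := h3 i hi hi2
          (simp only [cov_cons, cov_nil]; split_ifs at h ⊢ <;> omega)
        · (simp only [cov_cons, cov_nil]; split_ifs <;> omega)
      · intro b hb
        simp only [balls, List.mem_cons] at hb
        rcases hb with rfl | hb
        · (simp only [cov_cons, cov_nil]; split_ifs <;> omega)
        · have h := h4 b hb
          (simp only [cov_cons, cov_nil]; split_ifs <;> omega)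
      · simp only [rs_cons, len]
        omega
      · intro a b ha hb
        (simp only [cov_cons, cov_nil]; split_ifs <;> omega)
    · interval_cases y
      · obtain ⟨L, ⟨h1, h2, h3, h4⟩, h5⟩ := H1 (q + 1 + 2 * r + 1)
        have hq : q + 1 + 2 * r + 1 + len t e = q + len ((1, r) :: t) e := by simp only [len]; omega
        rw [hq] at h1 h3
        refine ⟨(C + r, R + r) :: (q + r + 1, r + 1) :: L, ok2 h1 h2 (by omega) (by omega)
          (by omega) (by simp only [len]; omega) (by omega) (by omega) ?_ ?_, ?_, ?_⟩
        · intro i hi1 hi2
          by_cases hi : q + 1 + 2 * r + 1 ≤ i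
          · have h := h3 i hi hi2
            (simp only [cov_cons, cov_nil]; split_ifs at h ⊢ <;> omega)
          · (simp only [cov_cons, cov_nil]; split_ifs <;> omega)
        · intro b hb
          simp only [balls, List.mem_cons] at hb
          rcases hb with rfl | hb
          · (simp only [cov_cons, cov_nil]; split_ifs <;> omega)
          · have h := h4 b hb
            (simp only [cov_cons, cov_nil]; split_ifs <;> omega)
        · simp only [rs_cons, len]
          omega
        · intro a b ha hb
          (simp only [cov_cons, cov_nil]; split_ifs <;> omega)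
      · obtain ⟨L, ⟨h1, h2, h3, h4⟩, h5, h6⟩ :=
          H2 0 (q + 1 + 2 * r + 1) (q + r + 2) (r + 1) (by omega) (by omega) (by omega)
        have hq : q + 1 + 2 * r + 1 + len t e = q + len ((1, r) :: t) e := by simp only [len]; omega
        rw [hq] at h1 h3
        refine ⟨(C, R) :: (q + r + 1, r) :: L, ok2 h1 h2 (by omega) (by omega)
          (by omega) (by simp only [len]; omega) (by omega) (by omega) ?_ ?_, ?_, ?_⟩
        · intro i hi1 hi2
          by_cases hi : q + 1 + 2 * r + 1 ≤ i
          · have h := h3 i hi hi2
            (simp only [cov_cons, cov_nil]; split_ifs at h ⊢ <;> omega)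
          · by_cases hi' : i = q
            · (simp only [cov_cons, cov_nil]; split_ifs <;> omega)
            · have h := h6 i i (by omega) (by omega)
              (simp only [cov_cons, cov_nil]; split_ifs <;> omega)
        · intro b hb
          simp only [balls, List.mem_cons] at hb
          rcases hb with rfl | hb
          · have h := h6 (q + 1) (q + 1 + 2 * r) (by omega) (by omega)
            (simp only [cov_cons, cov_nil]; split_ifs <;> omega)
          · have h := h4 b hb
            (simp only [cov_cons, cov_nil]; split_ifs <;> omega)
        · simp only [rs_cons, len]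
          omega
        · intro a b ha hb
          (simp only [cov_cons, cov_nil]; split_ifs <;> omega)
  · obtain ⟨L, ⟨h1, h2, h3, h4⟩, h5⟩ := n2_cons t e r hr H1 H2 y hy g q hg
    refine ⟨(C, R) :: L, ok1 (lo' := q + 1) h1 h2 le_rfl (by omega) (by simp only [len]; omega)
      (by omega) ?_ ?_, by rw [rs_cons]; omega, ?_⟩
    · intro i hi1 hi2
      have h := h3 i hi1 hi2
      (simp only [cov_cons, cov_nil]; split_ifs at h ⊢ <;> omega)
    · intro b hb
      have h := h4 b hb
      (simp only [cov_cons, cov_nil]; split_ifs <;> omega)
    · intro a b ha hb; (simp only [cov_cons, cov_nil]; split_ifs <;> omega)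

end

theorem all_states (rem : List (ℕ × ℕ)) (e : ℕ) (hrem : ∀ m ∈ rem, 1 ≤ m.2) :
    (∀ q, N1 rem e q) ∧ (∀ y q C R, y ≤ 1 → C + R = q + 1 → C < q → P2 y rem e q C R) ∧
    (∀ y q, y ≤ 1 → 2 ≤ fg rem e → N2 y rem e q) := by
  induction rem with
  | nil =>
    exact ⟨n1_nil e, fun y q C R hy h1 h2 => p2_nil y hy e q C R h1 h2,
      fun y q hy h => n2_nil y hy e q h⟩
  | cons m t ih =>
    obtain ⟨g, r⟩ := m
    have hr : 1 ≤ r := hrem (g, r) (by simp)
    obtain ⟨H1, H2, -⟩ := ih (fun m hm => hrem m (by simp [hm]))
    exact ⟨n1_cons t e r hr H1 H2 g, fun y q C R hy h1 h2 => p2_cons t e r hr H1 H2 y hy g q C R h1 h2,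
      fun y q hy h => n2_cons t e r hr H1 H2 y hy g q h⟩

/-- the cover of the whole interval -/
theorem cover (rem : List (ℕ × ℕ)) (e : ℕ) (hrem : ∀ m ∈ rem, 1 ≤ m.2) (h2 : 2 ≤ len rem e) :
    ∃ L, Ok 0 0 (len rem e) 0 0 (balls 0 rem) L ∧ 3 * rs L ≤ 2 * (len rem e + rs rem) + 4 := by
  by_cases hf : 2 ≤ fg rem e
  · obtain ⟨L, ⟨h1, h2, h3, h4⟩, h5⟩ := (all_states rem e hrem).2.2 0 0 (by omega) hf
    refine ⟨(0, 1) :: L, ok1 h1 h2 (by omega) (by omega) (by omega) (by omega) ?_ ?_, ?_⟩
    · intro i hi1 hi2
      have h := h3 i hi1 hi2
      (simp only [cov_cons, cov_nil]; split_ifs at h ⊢ <;> omega)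
    · intro b hb
      have h := h4 b hb
      (simp only [cov_cons, cov_nil]; split_ifs <;> omega)
    · simp only [rs_cons]
      omega
  · cases rem with
    | nil => simp only [fg, len] at hf h2; omega
    | cons m t =>
      obtain ⟨g, r⟩ := m
      have hr : 1 ≤ r := hrem (g, r) (by simp)
      obtain ⟨H1, H2, -⟩ := all_states t e (fun m hm => hrem m (by simp [hm]))
      simp only [fg] at hf
      interval_cases g
      · obtain ⟨L, ⟨h1, h2, h3, h4⟩, h5, h6⟩ :=
          H2 0 (0 + 0 + 2 * r + 1) (r + 1) (r + 1) (by omega) (by omega) (by omega)
        have hq : 0 + 0 + 2 * r + 1 + len t e = 0 + len ((0, r) :: t) e := by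
          simp only [len]; omega
        rw [hq] at h1 h3
        refine ⟨(r, r) :: L, ok1 h1 h2 (by omega) (by omega) (by simp only [len]; omega) hr
          ?_ ?_, ?_⟩
        · intro i hi1 hi2
          by_cases hi : 0 + 0 + 2 * r + 1 ≤ i
          · have h := h3 i hi hi2
            (simp only [cov_cons, cov_nil]; split_ifs at h ⊢ <;> omega)
          · have h := h6 i i (by omega) (by omega)
            (simp only [cov_cons, cov_nil]; split_ifs <;> omega)
        · intro b hb
          simp only [balls, List.mem_cons] at hb
          rcases hb with rfl | hb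
          · have h := h6 (0 + 0) (0 + 0 + 2 * r) (by omega) (by omega)
            (simp only [cov_cons, cov_nil]; split_ifs <;> omega)
          · have h := h4 b hb
            (simp only [cov_cons, cov_nil]; split_ifs <;> omega)
        · simp only [rs_cons, len]
          omega
      · obtain ⟨L, ⟨h1, h2, h3, h4⟩, h5⟩ := H1 (0 + 1 + 2 * r + 1)
        have hq : 0 + 1 + 2 * r + 1 + len t e = 0 + len ((1, r) :: t) e := by
          simp only [len]; omega
        rw [hq] at h1 h3
        refine ⟨(r, r + 1) :: (r + 1, r + 1) :: L, ok2 h1 h2 (by omega) (by omega)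
          (by omega) (by simp only [len]; omega) (by omega) (by omega) ?_ ?_, ?_⟩
        · intro i hi1 hi2
          by_cases hi : 0 + 1 + 2 * r + 1 ≤ i
          · have h := h3 i hi hi2
            (simp only [cov_cons, cov_nil]; split_ifs at h ⊢ <;> omega)
          · (simp only [cov_cons, cov_nil]; split_ifs <;> omega)
        · intro b hb
          simp only [balls, List.mem_cons] at hb
          rcases hb with rfl | hb
          · (simp only [cov_cons, cov_nil]; split_ifs <;> omega)
          · have h := h4 b hb
            (simp only [cov_cons, cov_nil]; split_ifs <;> omega)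
        · simp only [rs_cons, len]
          omega

end Pool.Agent.N382.B2
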